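import Pool.Agent.Helper96.ND.U5

/-!
# MP_0c2f33_an: part U1
-/

set_option autoImplicit false

namespace Pool.Agent.Helper96.ND
open MeasureTheory Set Filter Topology
open scoped ENNReal NNReal ContDiff Convolution
open Pool.Agent.Helper28.ND Pool.Agent.Helper75.ND Pool.Agent.Helper18.ND
open Pool.Agent.Helper87.ND.MOLG (eta eta_smooth eta_cs eta_zero mol_eq)

theorem strip0 {r d : ℕ} {T : ℝ} {f : ℝ → (Fin d → ℝ) → ℝ} (hr : r = 1 ∨ r = 2)
    (h : PL r T f) : IntegrableOn (U f) ((univ : Set ℝ) ×ˢ Q d) := by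
  have h1 := PL_int hr h
  rw [muT_eq] at h1
  have h2 : U f = (Ioo 0 T ×ˢ (univ : Set (Fin d → ℝ))).indicator (U f) := by
    funext z
    by_cases hz : z ∈ (Ioo 0 T ×ˢ (univ : Set (Fin d → ℝ)))
    · rw [indicator_of_mem hz]
    · rw [indicator_of_notMem hz]
      have hz1 : z.1 ≤ 0 ∨ T ≤ z.1 := by
        by_contra hcon
        push Not at hcon
        exact hz ⟨⟨hcon.1, hcon.2⟩, mem_univ _⟩
      exact h.off z.1 hz1 z.2
  unfold IntegrableOn
  rw [h2, integrable_indicator_iff (measurableSet_Ioo.prod MeasurableSet.univ)]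
  unfold IntegrableOn
  rw [Measure.restrict_restrict (measurableSet_Ioo.prod MeasurableSet.univ)]
  have h3 : (Ioo 0 T ×ˢ (univ : Set (Fin d → ℝ))) ∩ ((univ : Set ℝ) ×ˢ Q d) = Ioo 0 T ×ˢ Q d := by
    rw [prod_inter_prod, inter_univ, univ_inter]
  rw [h3]
  exact h1

theorem stripk {r d : ℕ} {T : ℝ} {f : ℝ → (Fin d → ℝ) → ℝ} (hr : r = 1 ∨ r = 2)
    (h : PL r T f) (k : Fin d → ℤ) :
    IntegrableOn (U f) {z : ℝ × (Fin d → ℝ) | (fun i => z.2 i - (k i : ℝ)) ∈ Q d} := by
  set a : ℝ × (Fin d → ℝ) := (0, fun i => (k i : ℝ)) with ha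
  have hmp : MeasurePreserving (fun z : ℝ × (Fin d → ℝ) => z - a)
      (volume : Measure (ℝ × (Fin d → ℝ))) volume := measurePreserving_sub_right _ a
  have he : MeasurableEmbedding (fun z : ℝ × (Fin d → ℝ) => z - a) :=
    measurableEmbedding_subRight a
  have h1 := (hmp.integrableOn_comp_preimage he (f := U f) (s := (univ : Set ℝ) ×ˢ Q d)).2
    (strip0 hr h)
  have h2 : (U f ∘ fun z : ℝ × (Fin d → ℝ) => z - a) = U f := by
    funext z
    have h3 := h.per z.1 (fun i => z.2 i - (k i : ℝ)) k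
    have h4 : (fun i => z.2 i - (k i : ℝ) + (k i : ℝ)) = z.2 := by
      funext i; ring
    rw [h4] at h3
    have h5 : (U f ∘ fun z : ℝ × (Fin d → ℝ) => z - a) z = f z.1 (fun i => z.2 i - (k i : ℝ)) := by
      simp only [Function.comp, U, ha, Prod.fst_sub, Prod.snd_sub, sub_zero]
      rfl
    rw [h5, ← h3]
    rfl
  have h3 : (fun z : ℝ × (Fin d → ℝ) => z - a) ⁻¹' ((univ : Set ℝ) ×ˢ Q d) =
      {z : ℝ × (Fin d → ℝ) | (fun i => z.2 i - (k i : ℝ)) ∈ Q d} := by
    ext z
    constructor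
    · intro hz
      exact hz.2
    · intro hz
      exact ⟨mem_univ _, hz⟩
  rw [h2, h3] at h1
  exact h1

theorem locIntPL {r d : ℕ} {T : ℝ} {f : ℝ → (Fin d → ℝ) → ℝ} (hr : r = 1 ∨ r = 2)
    (h : PL r T f) : LocallyIntegrable (U f) (volume : Measure (ℝ × (Fin d → ℝ))) := by
  rw [locallyIntegrable_iff]
  intro K hK
  obtain ⟨M, hM⟩ := hK.isBounded.exists_norm_le
  set N : ℤ := ⌈M⌉ + 1 with hN
  set F : Finset (Fin d → ℤ) := Fintype.piFinset fun _ => Finset.Icc (-N) N with hF
  have hcov : K ⊆ ⋃ k ∈ F, {z : ℝ × (Fin d → ℝ) | (fun i => z.2 i - (k i : ℝ)) ∈ Q d} := by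
    intro z hz
    have hz1 : ∀ i, |z.2 i| ≤ M := by
      intro i
      have h1 : ‖z.2‖ ≤ ‖z‖ := norm_snd_le z
      have h2 : ‖z.2 i‖ ≤ ‖z.2‖ := norm_le_pi_norm _ _
      rw [Real.norm_eq_abs] at h2
      exact h2.trans (h1.trans (hM z hz))
    rw [mem_iUnion₂]
    refine ⟨fun i => ⌈z.2 i⌉ - 1, ?_, ?_⟩
    · rw [hF, Fintype.mem_piFinset]
      intro i
      rw [Finset.mem_Icc]
      have h1 := abs_le.1 (hz1 i)
      have h2 := Int.ceil_lt_add_one (z.2 i)
      have h3 := Int.le_ceil (z.2 i)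
      have h4 := Int.le_ceil M
      constructor
      · have h5 : (-(⌈M⌉ : ℝ)) ≤ (⌈z.2 i⌉ : ℝ) := by linarith
        have h6 : -⌈M⌉ ≤ ⌈z.2 i⌉ := by exact_mod_cast h5
        omega
      · have h5 : (⌈z.2 i⌉ : ℝ) < (⌈M⌉ : ℝ) + 1 := by linarith
        have h6 : ⌈z.2 i⌉ < ⌈M⌉ + 1 := by exact_mod_cast h5
        omega
    · intro i _
      have h2 := Int.ceil_lt_add_one (z.2 i)
      have h3 := Int.le_ceil (z.2 i)
      constructor
      · push_cast
        linarith
      · push_cast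
        linarith
  exact ((integrableOn_finset_iUnion).2 fun k _ => stripk hr h k).mono_set hcov

theorem U1.main : S_U1 := by
  intro r d T f hr hT h
  have hl := locIntPL hr h
  refine ⟨hl, ?_, ?_⟩
  · intro n
    constructor
    · rw [mol_eq]
      exact (eta_cs d n).contDiff_convolution_left _ (eta_smooth d n) hl
    · intro t x k
      unfold mol
      refine integral_congr_ae (Eventually.of_forall fun w => ?_)
      have := h.per (t - w.1) (x - w.2) k
      simp only
      rw [← this]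
      congr 2
      funext i
      simp only [Pi.sub_apply]
      ring
  · intro n t ht x
    unfold mol
    have : ∀ w : ℝ × (Fin d → ℝ), eta d n w * f (t - w.1) (x - w.2) = 0 := by
      intro w
      by_cases hc : 1 / (4 * ((n : ℝ) + 1)) ≤ |w.1|
      · rw [eta_zero hc]; simp
      · push Not at hc
        have h1 := le_abs_self w.1
        have h2 := neg_abs_le w.1
        rw [h.off (t - w.1) (by
          rcases ht with ht | ht
          · left; linarith
          · right; linarith)]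
        simp
    change ∫ w : ℝ × (Fin d → ℝ), eta d n w * f (t - w.1) (x - w.2) = 0
    simp only [this, integral_zero]

end Pool.Agent.Helper96.ND
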