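import Pool.Agent.Helper18.ND.USpec
import Pool.Agent.Helper75.ND.DIV2
import Pool.Agent.Helper87.ND.MOLG

/-!
# MP_0c2f33_an: part U5
-/

set_option autoImplicit false

namespace Pool.Agent.Helper96.ND
open MeasureTheory Set Filter Topology
open scoped ENNReal NNReal ContDiff
open Pool.Agent.Helper28.ND Pool.Agent.Helper75.ND Pool.Agent.Helper18.ND

theorem Q_sub (d : ℕ) : Q d ⊆ Icc (0 : Fin d → ℝ) 1 := by
  intro x hx
  constructor
  · intro i
    exact (hx i (mem_univ i)).1.le
  · intro i
    exact (hx i (mem_univ i)).2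

theorem Q_meas (d : ℕ) : MeasurableSet (Q d) :=
  MeasurableSet.univ_pi fun _ => measurableSet_Ioc

theorem Q_fin (d : ℕ) : volume (Q d) < ⊤ :=
  (measure_mono (Q_sub d)).trans_lt isCompact_Icc.measure_lt_top

/-- the measure on `(0,T) × Q` -/
noncomputable abbrev muT (d : ℕ) (T : ℝ) : Measure (ℝ × (Fin d → ℝ)) :=
  ((volume : Measure ℝ).restrict (Ioo 0 T)).prod ((volume : Measure (Fin d → ℝ)).restrict (Q d))

theorem muT_eq (d : ℕ) (T : ℝ) :
    muT d T = (volume : Measure (ℝ × (Fin d → ℝ))).restrict (Ioo 0 T ×ˢ Q d) := by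
  unfold muT
  rw [Measure.prod_restrict, Measure.volume_eq_prod]

instance finQ (d : ℕ) : IsFiniteMeasure ((volume : Measure (Fin d → ℝ)).restrict (Q d)) :=
  ⟨by rw [Measure.restrict_apply_univ]; exact Q_fin d⟩

theorem le_pow {r : ℕ} (hr : r = 1 ∨ r = 2) (a : ℝ≥0∞) : a ≤ 1 + a ^ r := by
  rcases hr with rfl | rfl
  · rw [pow_one]
    exact le_add_self
  · rcases le_total a 1 with h | h
    · exact h.trans le_self_add
    · calc a = a * 1 := (mul_one a).symm
        _ ≤ a * a := mul_le_mul' le_rfl h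
        _ = a ^ 2 := (sq a).symm
        _ ≤ _ := le_add_self

theorem PL_int {r d : ℕ} {T : ℝ} {f : ℝ → (Fin d → ℝ) → ℝ} (hr : r = 1 ∨ r = 2)
    (h : PL r T f) : Integrable (U f) (muT d T) := by
  refine ⟨h.meas.aestronglyMeasurable, ?_⟩
  unfold HasFiniteIntegral
  have hm : Measurable fun z : ℝ × (Fin d → ℝ) => ‖U f z‖ₑ ^ r := h.meas.enorm.pow_const r
  calc ∫⁻ z, ‖U f z‖ₑ ∂(muT d T) ≤ ∫⁻ z, (1 + ‖U f z‖ₑ ^ r) ∂(muT d T) :=
        lintegral_mono fun z => le_pow hr _
    _ = ∫⁻ _z, 1 ∂(muT d T) + ∫⁻ z, ‖U f z‖ₑ ^ r ∂(muT d T) :=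
        lintegral_add_left measurable_const _
    _ < ⊤ := by
        refine ENNReal.add_lt_top.2 ⟨?_, ?_⟩
        · rw [lintegral_one]
          exact measure_lt_top _ _
        · rw [lintegral_prod _ hm.aemeasurable]
          exact h.int

theorem bddOn {d : ℕ} {T : ℝ} {g : ℝ × (Fin d → ℝ) → ℝ} (hg : Continuous g) :
    ∃ B : ℝ, ∀ᵐ z ∂(muT d T), ‖g z‖ ≤ B := by
  have hK : IsCompact (Icc (0 : ℝ) T ×ˢ Icc (0 : Fin d → ℝ) 1) := isCompact_Icc.prod isCompact_Icc
  obtain ⟨B, hB⟩ := hK.exists_bound_of_continuousOn hg.continuousOn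
  refine ⟨B, ?_⟩
  rw [muT_eq]
  refine ae_restrict_of_forall_mem (measurableSet_Ioo.prod (Q_meas d)) fun z hz => ?_
  exact hB z ⟨Ioo_subset_Icc_self hz.1, Q_sub d hz.2⟩

theorem int_prod {r d : ℕ} {T : ℝ} {f : ℝ → (Fin d → ℝ) → ℝ} (hr : r = 1 ∨ r = 2)
    (h : PL r T f) {g : ℝ × (Fin d → ℝ) → ℝ} (hg : Continuous g) :
    Integrable (fun z => U f z * g z) (muT d T) := by
  obtain ⟨B, hB⟩ := bddOn (T := T) hg
  have := (PL_int hr h).bdd_mul hg.aestronglyMeasurable hB
  refine this.congr (Eventually.of_forall fun z => mul_comm _ _)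

theorem cut_lim {G : ℝ → ℝ} {T : ℝ} (hGi : IntegrableOn G (Ioo 0 T)) :
    Tendsto (fun n : ℕ => ∫ t in Ioo 0 T, Real.smoothTransition (((n : ℝ) + 1) * t - 1) * G t)
      atTop (𝓝 (∫ t in Ioo 0 T, G t)) := by
  have hths : ∀ n : ℕ, Continuous fun t : ℝ => Real.smoothTransition (((n : ℝ) + 1) * t - 1) := by
    intro n
    exact Real.smoothTransition.continuous.comp (by fun_prop)
  apply tendsto_integral_of_dominated_convergence (fun t => |G t|)
  · intro n
    exact ((hths n).aestronglyMeasurable).mul hGi.aestronglyMeasurable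
  · exact hGi.abs
  · intro n
    refine Filter.Eventually.of_forall (fun t => ?_)
    rw [Real.norm_eq_abs, abs_mul]
    have h0 := Real.smoothTransition.nonneg (((n : ℝ) + 1) * t - 1)
    have h1 := Real.smoothTransition.le_one (((n : ℝ) + 1) * t - 1)
    rw [abs_of_nonneg h0]
    exact mul_le_of_le_one_left (abs_nonneg _) h1
  · refine (ae_restrict_iff' measurableSet_Ioo).mpr (Filter.Eventually.of_forall (fun t ht => ?_))
    have hev : ∀ᶠ n : ℕ in atTop,
        Real.smoothTransition (((n : ℝ) + 1) * t - 1) * G t = G t := by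
      obtain ⟨N, hN⟩ := exists_nat_gt (2 / t)
      filter_upwards [eventually_ge_atTop N] with n hn
      have h1 : (1 : ℝ) ≤ ((n : ℝ) + 1) * t - 1 := by
        have h2 : 2 / t < (n : ℝ) + 1 := by
          have : (N : ℝ) ≤ n := by exact_mod_cast hn
          linarith
        rw [div_lt_iff₀ ht.1] at h2
        linarith
      rw [Real.smoothTransition.one_of_one_le h1, one_mul]
    exact tendsto_const_nhds.congr' (hev.mono (fun n h => h.symm))

theorem U5.main : S_U5 := by
  intro d T u G i hT hu hG h0 f hf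
  obtain ⟨hsm, S, hST, hfS⟩ := hf
  set th : ℕ → ℝ → ℝ := fun n t => Real.smoothTransition (((n : ℝ) + 1) * t - 1) with hth
  have hths : ∀ n, ContDiff ℝ (⊤ : ℕ∞) (th n) := by
    intro n
    exact Real.smoothTransition.contDiff.comp (by fun_prop)
  have heq : ∀ n, ∫ t in Ioo 0 T, th n t * ∫ x in Q d, u t x * pd i (f t) x
      = - ∫ t in Ioo 0 T, th n t * ∫ x in Q d, G t x * f t x := by
    intro n
    have htest : IsTest0 T (fun t x => th n t * f t x) := by
      refine ⟨⟨?_, ?_⟩, min (1 / ((n : ℝ) + 1)) (T - S), ?_, ?_⟩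
      · have : U (fun t x => th n t * f t x) = fun z : ℝ × (Fin d → ℝ) => th n z.1 * U f z := rfl
        rw [this]
        exact ((hths n).comp contDiff_fst).mul hsm.smooth
      · intro t x k
        simp only
        rw [hsm.per t x k]
      · apply lt_min (by positivity); linarith
      · intro t ht x
        rcases ht with ht | ht
        · have h1 : t ≤ 1 / ((n : ℝ) + 1) := ht.trans (min_le_left _ _)
          have h2 : ((n : ℝ) + 1) * t - 1 ≤ 0 := by
            have hp : (0 : ℝ) < (n : ℝ) + 1 := by positivity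
            have h4 : ((n : ℝ) + 1) * t ≤ ((n : ℝ) + 1) * (1 / ((n : ℝ) + 1)) :=
              mul_le_mul_of_nonneg_left h1 hp.le
            rw [mul_one_div_cancel hp.ne'] at h4
            linarith
          have h3 : th n t = 0 := Real.smoothTransition.zero_of_nonpos h2
          simp [h3]
        · have h1 : S ≤ t := by
            have := min_le_right (1 / ((n : ℝ) + 1)) (T - S)
            linarith
          simp [hfS t h1 x]
    have h1 := h0 _ htest
    have h2 : ∫ t in Ioo 0 T, th n t * ∫ x in Q d, u t x * pd i (f t) x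
        = ∫ t in Ioo 0 T, ∫ x in Q d, u t x * pd i (fun x => th n t * f t x) x := by
      apply setIntegral_congr_fun measurableSet_Ioo
      intro t _
      simp only
      rw [← integral_const_mul]
      refine integral_congr_ae (Filter.Eventually.of_forall (fun x => ?_))
      simp only
      rw [congrFun (pd_cmul (diff_sl hsm.smooth t) i (th n t)) x]
      ring
    have h3 : ∫ t in Ioo 0 T, th n t * ∫ x in Q d, G t x * f t x
        = ∫ t in Ioo 0 T, ∫ x in Q d, G t x * (th n t * f t x) := by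
      apply setIntegral_congr_fun measurableSet_Ioo
      intro t _
      simp only
      rw [← integral_const_mul]
      refine integral_congr_ae (Filter.Eventually.of_forall (fun x => ?_))
      simp only
      ring
    rw [h2, h3]
    exact h1
  have i1 : IntegrableOn (fun t => ∫ x in Q d, u t x * pd i (f t) x) (Ioo 0 T) := by
    have := (int_prod (Or.inr rfl) hu (smooth_D1 hsm.smooth i).continuous).integral_prod_left
    exact this
  have i2 : IntegrableOn (fun t => ∫ x in Q d, G t x * f t x) (Ioo 0 T) := by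
    have := (int_prod (Or.inr rfl) hG hsm.smooth.continuous).integral_prod_left
    exact this
  have l1 := cut_lim i1
  have l2 := (cut_lim i2).neg
  exact tendsto_nhds_unique l1 (l2.congr fun n => (heq n).symm)

end Pool.Agent.Helper96.ND
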